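import Pool.Agent.H38.ER.Defs

/-!
Low-rank approximation in the entrywise zero norm.
-/

namespace Pool.Agent.H38.Lra

open Pool.Agent.H38.NP

/-- An instance `(m, n, A, k, ε)`: `A` is a list of `m` rows of `n` rationals and `ε > 0`. -/
def Inst (p : ℕ × ℕ × List (List ℚ) × Bin × ℚ) : Prop :=
  (p.2.2.1.length = p.1 ∧ ∀ r ∈ p.2.2.1, r.length = p.2.1) ∧ 0 < p.2.2.2.2

open Classical in
/-- The number of entries where the real matrix `B` differs from the listed matrix `A`. -/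
noncomputable def diff {m n : ℕ} (A : List (List ℚ)) (B : Matrix (Fin m) (Fin n) ℝ) : ℕ :=
  (Finset.univ.filter fun z : Fin m × Fin n =>
    (((A.getD z.1 []).getD z.2 0 : ℚ) : ℝ) ≠ B z.1 z.2).card

/-- Some real matrix of rank at most `k` differs from `A` in fewer than `ε` entries. -/
def LRA0 (p : ℕ × ℕ × List (List ℚ) × Bin × ℚ) : Prop :=
  ∃ B : Matrix (Fin p.1) (Fin p.2.1) ℝ, B.rank ≤ p.2.2.2.1.val ∧ (diff p.2.2.1 B : ℚ) < p.2.2.2.2

end Pool.Agent.H38.Lra
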