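import Pool.Agent.H38.Lra.Defs
import Pool.Agent.H38.Cmi.Red
import Pool.Agent.H38.Had.Lin

/-!
Reduction from rank three completion.
-/

namespace Pool.Agent.H38.Lra

open Pool.Agent.H38.NP Pool.Agent.H38.ER Pool.Agent.H38.Cmi Finset

theorem ex4 {t : ℕ} {S : Finset (Fin t)} (h : 4 ≤ S.card) :
    ∃ g : Fin 4 → Fin t, Function.Injective g ∧ ∀ q, g q ∈ S :=
  ⟨S.orderEmbOfCardLe h, (S.orderEmbOfCardLe h).injective, S.orderEmbOfCardLe_mem h⟩

theorem blk {t s : ℕ} (Ag : Fin t → Fin s → Prop) [∀ a b, Decidable (Ag a b)]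
    (H : ∀ (f : Fin 4 → Fin t) (g : Fin 4 → Fin s), Function.Injective f → Function.Injective g →
      ¬ ∀ p q, Ag (f p) (g q)) :
    ∑ y : Fin t × Fin s, (if Ag y.1 y.2 then 1 else 0) ≤ 3 * s + 3 * t ^ 5 := by
  classical
  let bad : Finset (Fin s) := {b | 4 ≤ (univ.filter fun a => Ag a b).card}
  have h1 : bad.card ≤ t ^ 4 * 3 := by
    have : bad ⊆ ({f : Fin 4 → Fin t | Function.Injective f} : Finset _).biUnion
        fun f => {b | ∀ p, Ag (f p) b} := fun b hb => by
      obtain ⟨g, a, c⟩ := ex4 (mem_filter.1 hb).2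
      simpa using ⟨g, a, by simpa using c⟩
    refine (card_le_card this).trans ((card_biUnion_le_card_mul _ _ 3 fun f hf => ?_).trans ?_)
    · by_contra hc
      obtain ⟨g, a, c⟩ := ex4 (not_le.1 hc)
      exact H f g (by simpa using hf) a fun p q => (mem_filter.1 (c q)).2 p
    · exact Nat.mul_le_mul_right _ ((card_le_univ _).trans (by simp))
  rw [Fintype.sum_prod_type, sum_comm]
  refine (sum_le_sum (g := fun b => 3 + if b ∈ bad then t else 0) fun b _ => ?_).trans ?_
  · rw [← card_filter]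
    split_ifs with hb
    · exact (card_le_univ _).trans (by simp)
    · simp only [bad, mem_filter, mem_univ, true_and] at hb
      exact Nat.le_of_lt_succ (not_le.1 hb)
  · simp only [sum_add_distrib, sum_const, card_univ, Fintype.card_fin, smul_eq_mul, sum_ite_mem,
      univ_inter]
    have := Nat.mul_le_mul_right t h1
    nlinarith

theorem cube (a b : Fin 4 → ℝ) (ha : Function.Injective a) (hb : Function.Injective b) :
    (Matrix.of fun p q => (a p + b q) ^ 3).det ≠ 0 := by
  have : (Matrix.of fun p q => (a p + b q) ^ 3) = Matrix.vandermonde a *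
      !![0, 0, 0, 1; 0, 0, 3, 0; 0, 3, 0, 0; 1, 0, 0, 0] * (Matrix.vandermonde b).transpose := by
    ext p q
    simp [Matrix.mul_apply, Fin.sum_univ_four, Matrix.vandermonde]
    ring
  rw [this, Matrix.det_mul, Matrix.det_mul, Matrix.det_transpose]
  refine mul_ne_zero (mul_ne_zero (Matrix.det_vandermonde_ne_zero_iff.2 ha) ?_)
    (Matrix.det_vandermonde_ne_zero_iff.2 hb)
  simp [Matrix.det_succ_row_zero, Fin.sum_univ_succ, Fin.succAbove]

theorem fac3 {m n : ℕ} (B : Matrix (Fin m) (Fin n) ℝ) (h : B.rank ≤ 3) :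
    ∃ (P : Fin m → V3) (L : Fin n → V3), ∀ i j, B i j = ip (P i) (L j) := by
  obtain ⟨r, hr⟩ : ∃ r, B.rank = r := ⟨_, rfl⟩
  obtain ⟨X, Y, e⟩ := Had.fac B hr
  obtain rfl | rfl | rfl | rfl : r = 0 ∨ r = 1 ∨ r = 2 ∨ r = 3 := by omega
  · exact ⟨0, 0, by simp [e, ip]⟩
  · exact ⟨fun i => (X i 0, 0, 0), fun j => (Y 0 j, 0, 0), by simp [e, ip]⟩
  · exact ⟨fun i => (X i 0, X i 1, 0), fun j => (Y 0 j, Y 1 j, 0), by simp [e, ip]⟩
  · exact ⟨fun i => (X i 0, X i 1, X i 2), fun j => (Y 0 j, Y 1 j, Y 2 j), by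
      simp [e, ip, Fin.sum_univ_three]⟩

abbrev In := ℕ × List (ℕ × ℕ)

def tt (p : In) : ℕ := 6 * (p.1 * p.1) + 1
def ss (p : In) : ℕ := tt p * tt p * tt p * tt p * tt p
def val (p : In) (i a j b : ℕ) : ℕ :=
  if i = j then 1 else if (i, j) ∈ p.2 then 0 else (a + b) * (a + b) * (a + b)
def ff (p : In) : ℕ := ((List.range p.1).map fun i => ((List.range p.1).map fun j =>
  if i ≠ j ∧ (i, j) ∉ p.2 then 1 else 0).sum).sum
def mat (p : In) : List (List ℚ) := (List.range (p.1 * tt p)).map fun r =>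
  (List.range (p.1 * ss p)).map fun c =>
    ((val p (r / tt p) (r % tt p) (c / ss p) (c % ss p) : ℤ) : ℚ)
def inst (p : In) : ℕ × ℕ × List (List ℚ) × Bin × ℚ :=
  (p.1 * tt p, p.1 * ss p, mat p, ⟨3⟩, ((ff p * (tt p * ss p) + 1 : ℕ) : ℤ))

theorem pt_inst : PT inst := by
  have h1 : PT tt := by unfold tt; fun_prop
  have h2 : PT ss := by unfold ss; fun_prop
  have h3 : PT ff := by unfold ff; fun_prop
  have h4 : PT mat := by unfold mat val; fun_prop
  unfold inst
  fun_prop

theorem sum_rng (n : ℕ) (f : ℕ → ℕ) : ((List.range n).map f).sum = ∑ v : Fin n, f v := by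
  rw [← List.sum_toFinset _ List.nodup_range, List.toFinset_range, ← Fin.sum_univ_eq_sum_range]

open Classical in
theorem diff_eq (p : In) (B : Matrix (Fin (p.1 * tt p)) (Fin (p.1 * ss p)) ℝ) :
    diff (mat p) B = ∑ x : Fin p.1 × Fin p.1, ∑ y : Fin (tt p) × Fin (ss p),
      if (val p x.1 y.1 x.2 y.2 : ℝ) ≠
        B (finProdFinEquiv (x.1, y.1)) (finProdFinEquiv (x.2, y.2)) then 1 else 0 := by
  rw [diff, card_filter, Fintype.sum_prod_type, ← finProdFinEquiv.sum_comp]
  simp only [Fintype.sum_prod_type]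
  refine sum_congr rfl fun i _ => ?_
  refine Eq.trans (sum_congr rfl fun a _ => ?_) sum_comm
  rw [← finProdFinEquiv.sum_comp, Fintype.sum_prod_type]
  refine sum_congr rfl fun j _ => sum_congr rfl fun b _ => ?_
  have h1 := (finProdFinEquiv (i, a)).2
  have h2 := (finProdFinEquiv (j, b)).2
  have ht : 0 < tt p := a.pos
  have hs : 0 < ss p := b.pos
  simp only [finProdFinEquiv_apply_val] at h1 h2
  simp [mat, List.getD_eq_getElem?_getD, h1, h2, Nat.add_mul_div_left _ _ ht,
    Nat.add_mul_div_left _ _ hs, Nat.div_eq_of_lt, Nat.mod_eq_of_lt]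

theorem lra_erh : ERH (fun p => Inst p ∧ p.2.2.2.1.val = 3) LRA0 := by
  classical
  refine bi_erh.reduce inst pt_inst fun p hE => ⟨⟨⟨⟨by simp [inst, mat], by simp [inst, mat]⟩,
    by simp only [inst]; positivity⟩, rfl⟩, ?_⟩
  have hf : ff p = ∑ x : Fin p.1 × Fin p.1,
      if x.1.val ≠ x.2.val ∧ (x.1.val, x.2.val) ∉ p.2 then 1 else 0 := by
    simp only [ff, sum_rng, Fintype.sum_prod_type]
  have lt : ∀ B : Matrix (Fin (p.1 * tt p)) (Fin (p.1 * ss p)) ℝ,
      (diff (mat p) B : ℚ) < (inst p).2.2.2.2 ↔ diff (mat p) B ≤ ff p * (tt p * ss p) := fun B => by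
    simp only [inst, Int.cast_natCast, Nat.cast_lt, Nat.lt_succ_iff]
  constructor
  · rintro ⟨P, L, h1, h2⟩
    let X : Matrix (Fin (p.1 * tt p)) (Fin 3) ℝ := Matrix.of fun r =>
      ![(P r.divNat).1, (P r.divNat).2.1, (P r.divNat).2.2]
    let Y : Matrix (Fin 3) (Fin (p.1 * ss p)) ℝ := Matrix.of fun k c =>
      ![(L c.divNat).1, (L c.divNat).2.1, (L c.divNat).2.2] k
    refine ⟨X * Y, (Matrix.rank_mul_le_left X Y).trans X.rank_le_width, (lt _).2 ?_⟩
    rw [diff_eq, hf, sum_mul]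
    refine sum_le_sum fun x _ => ?_
    have e : ∀ y : Fin (tt p) × Fin (ss p), (X * Y) (finProdFinEquiv (x.1, y.1))
        (finProdFinEquiv (x.2, y.2)) = ip (P x.1) (L x.2) := fun y => by
      have a : (finProdFinEquiv (x.1, y.1)).divNat = x.1 :=
        congrArg Prod.fst (finProdFinEquiv.symm_apply_apply (x.1, y.1))
      have b : (finProdFinEquiv (x.2, y.2)).divNat = x.2 :=
        congrArg Prod.fst (finProdFinEquiv.symm_apply_apply (x.2, y.2))
      simp only [Matrix.mul_apply, Fin.sum_univ_three, X, Y, Matrix.of_apply, a, b, ip]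
      rfl
    simp only [e]
    split_ifs with k
    · refine (sum_le_card_nsmul _ _ 1 fun y _ => by split_ifs <;> simp).trans (by simp)
    · refine (sum_eq_zero fun y _ => if_neg (not_not.2 ?_)).trans_le (Nat.zero_le _)
      unfold val
      split_ifs with a b
      · rw [← a, h1 _ x.1.2]; simp
      · rw [h2 _ b]; simp
      · exact (k ⟨a, b⟩).elim
  · rintro ⟨B : Matrix (Fin (p.1 * tt p)) (Fin (p.1 * ss p)) ℝ, hB : B.rank ≤ 3, hd⟩
    replace hd := (lt B).1 hd
    rw [diff_eq, sum_comm] at hd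
    obtain ⟨y, hy⟩ : ∃ y : Fin (tt p) × Fin (ss p), ∀ x : Fin p.1 × Fin p.1,
        ¬ (x.1.val ≠ x.2.val ∧ (x.1.val, x.2.val) ∉ p.2) → (val p x.1 y.1 x.2 y.2 : ℝ) =
          B (finProdFinEquiv (x.1, y.1)) (finProdFinEquiv (x.2, y.2)) := by
      by_contra hc
      simp only [not_exists, not_forall] at hc
      let Ag : Fin p.1 × Fin p.1 → Fin (tt p) → Fin (ss p) → Prop := fun x a b =>
        B (finProdFinEquiv (x.1, a)) (finProdFinEquiv (x.2, b)) = ((a : ℝ) + b) ^ 3
      have a1 : ∀ x, ∑ y : Fin (tt p) × Fin (ss p), (if Ag x y.1 y.2 then 1 else 0) ≤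
          6 * ss p := fun x => by
        refine (blk (Ag x) fun f g hf hg H => ?_).trans (le_of_eq (by unfold ss; ring))
        have := Matrix.rank_submatrix_le B (fun q => finProdFinEquiv (x.1, f q))
          fun q => finProdFinEquiv (x.2, g q)
        have e : B.submatrix (fun q => finProdFinEquiv (x.1, f q))
            (fun q => finProdFinEquiv (x.2, g q)) =
            Matrix.of fun p q => (((f p : ℕ) : ℝ) + ((g q : ℕ) : ℝ)) ^ 3 := by
          ext a b; exact H a b
        rw [e, Matrix.rank_of_det_ne_zero (cube _ _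
          (fun a b h => hf (Fin.ext (Nat.cast_injective h)))
          fun a b h => hg (Fin.ext (Nat.cast_injective h)))] at this
        exact absurd (this.trans hB) (by simp)
      have a2 := sum_le_card_nsmul univ _ _ fun x _ => a1 x
      rw [sum_comm] at a2
      have a3 := card_nsmul_le_sum (univ : Finset (Fin (tt p) × Fin (ss p))) (fun y =>
        (∑ x : Fin p.1 × Fin p.1, if (val p x.1 y.1 x.2 y.2 : ℝ) ≠
          B (finProdFinEquiv (x.1, y.1)) (finProdFinEquiv (x.2, y.2)) then 1 else 0) +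
        ∑ x : Fin p.1 × Fin p.1, if Ag x y.1 y.2 then 1 else 0) (ff p + 1) fun y _ => by
          obtain ⟨x0, b1, b2⟩ := hc y
          have s1 : ff p + 1 = ∑ x : Fin p.1 × Fin p.1, ((if x.1.val ≠ x.2.val ∧
              (x.1.val, x.2.val) ∉ p.2 then 1 else 0) + if x = x0 then 1 else 0) := by
            rw [sum_add_distrib, hf, sum_ite_eq', if_pos (mem_univ _)]
          rw [← sum_add_distrib, s1]
          refine sum_le_sum fun x _ => ?_
          by_cases k : x = x0
          · rw [k, if_neg b1, if_pos rfl, if_pos b2]; omega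
          rw [if_neg k]
          split_ifs with c1 c2 c3 c4 <;> try omega
          refine (c4 ((not_not.1 c2).symm.trans ?_)).elim
          simp [val, c1.1, c1.2]
          ring
      rw [sum_add_distrib] at a3
      simp only [card_univ, Fintype.card_prod, Fintype.card_fin, smul_eq_mul] at a2 a3
      have hs : 0 < ss p := by unfold ss tt; positivity
      have : tt p * ss p = p.1 * p.1 * (6 * ss p) + ss p := by unfold tt; ring
      nlinarith
    obtain ⟨P, L, e⟩ := fac3 B hB
    refine ⟨fun i => if h : i < p.1 then P (finProdFinEquiv (⟨i, h⟩, y.1)) else 0,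
      fun i => if h : i < p.1 then L (finProdFinEquiv (⟨i, h⟩, y.2)) else 0,
      fun k hk => ?_, fun z hz => ?_⟩
    · simp only [dif_pos hk]
      rw [← e, ← hy (⟨k, hk⟩, ⟨k, hk⟩) (by simp)]
      simp [val]
    · obtain ⟨a, b, c⟩ := hE z hz
      simp only [dif_pos a, dif_pos b]
      rw [← e, ← hy (⟨_, a⟩, ⟨_, b⟩) (by simp [hz])]
      simp [val, c, hz]

end Pool.Agent.H38.Lra
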